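import Mathlib
import Pool.Agent.L5helper59.DC.Defs

/-!
# The derivatives of the sums of the subpermanents
-/

set_option linter.unusedSectionVars false

namespace L5helper54.DC

open Finset MvPolynomial L5helper59.DC

section dt

variable {A γ : Type*} [CommRing A]

/-- Apply an additive map to all coefficients. -/
noncomputable def Dt (D : A →+ A) (P : MvPolynomial γ A) : MvPolynomial γ A :=
  ∑ m ∈ P.support, monomial m (D (coeff m P))

lemma coeff_Dt (D : A →+ A) (P : MvPolynomial γ A) (m : γ →₀ ℕ) :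
    coeff m (Dt D P) = D (coeff m P) := by
  classical
  unfold Dt
  rw [coeff_sum]
  simp only [coeff_monomial]
  rw [Finset.sum_ite_eq' P.support m (fun x => D (coeff x P))]
  split_ifs with h
  · rfl
  · rw [notMem_support_iff.1 h, map_zero]

lemma Dt_zero (D : A →+ A) : Dt D (0 : MvPolynomial γ A) = 0 := by
  ext m
  rw [coeff_Dt, coeff_zero, map_zero]

lemma Dt_add (D : A →+ A) (P Q : MvPolynomial γ A) : Dt D (P + Q) = Dt D P + Dt D Q := by
  ext m
  rw [coeff_Dt, coeff_add, coeff_add, coeff_Dt, coeff_Dt, map_add]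

lemma Dt_sum (D : A →+ A) {ι : Type*} (s : Finset ι) (f : ι → MvPolynomial γ A) :
    Dt D (∑ i ∈ s, f i) = ∑ i ∈ s, Dt D (f i) := by
  classical
  induction s using Finset.induction_on with
  | empty => rw [sum_empty, sum_empty, Dt_zero]
  | insert a s ha ih => rw [sum_insert ha, sum_insert ha, Dt_add, ih]

lemma Dt_mul (D : A →+ A) (hD : ∀ a b, D (a * b) = a * D b + b * D a) (P Q : MvPolynomial γ A) :
    Dt D (P * Q) = P * Dt D Q + Q * Dt D P := by
  classical
  ext m
  rw [coeff_Dt, coeff_mul, map_sum, coeff_add, coeff_mul, mul_comm Q, coeff_mul,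
    ← sum_add_distrib]
  apply sum_congr rfl
  intro x _
  rw [hD, coeff_Dt, coeff_Dt]
  ring

lemma D_one (D : A →+ A) (hD : ∀ a b, D (a * b) = a * D b + b * D a) : D 1 = 0 := by
  have h := hD 1 1
  rw [one_mul, one_mul] at h
  exact (left_eq_add.1 h)

lemma Dt_C (D : A →+ A) (a : A) : Dt D (C a : MvPolynomial γ A) = C (D a) := by
  classical
  ext m
  rw [coeff_Dt, coeff_C, coeff_C]
  split_ifs
  · rfl
  · rw [map_zero]

lemma Dt_X (D : A →+ A) (hD : ∀ a b, D (a * b) = a * D b + b * D a) (c : γ) :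
    Dt D (X c : MvPolynomial γ A) = 0 := by
  classical
  ext m
  rw [coeff_Dt, coeff_X, coeff_zero]
  split_ifs
  · exact D_one D hD
  · rw [map_zero]

lemma sqf_Dt [Fintype γ] [DecidableEq γ] (D : A →+ A) (r : ℕ) (P : MvPolynomial γ A) :
    sqf r (Dt D P) = D (sqf r P) := by
  unfold sqf
  rw [map_sum]
  apply sum_congr rfl
  intro S _
  rw [coeff_Dt]

lemma Dt_X_mul (D : A →+ A) (hD : ∀ a b, D (a * b) = a * D b + b * D a) (c : γ)
    (P : MvPolynomial γ A) : Dt D (X c * P) = X c * Dt D P := by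
  rw [Dt_mul D hD, Dt_X D hD, mul_zero, add_zero]

end dt

section esr

variable {R : Type*} [CommRing R] {ρ γ : Type*} [Fintype γ]

lemma esr_insert [DecidableEq ρ] {T : Finset ρ} {i : ρ} (hi : i ∉ T) (r : ℕ) (y : ρ → γ → R) :
    esr (insert i T) (r + 1) y = esr T (r + 1) y + lin (y i) * esr T r y := by
  unfold esr
  rw [powersetCard_succ_insert hi, sum_union]
  · congr 1
    rw [mul_sum, sum_image]
    · apply sum_congr rfl
      intro S hS
      rw [prod_insert]
      exact fun h => hi ((mem_powersetCard.1 hS).1 h)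
    · intro S hS S' hS' h
      have h1 : i ∉ S := fun h => hi ((mem_powersetCard.1 hS).1 h)
      have h2 : i ∉ S' := fun h => hi ((mem_powersetCard.1 hS').1 h)
      have h3 := congrArg (fun U => U.erase i) h
      simpa [erase_insert h1, erase_insert h2] using h3
  · rw [Finset.disjoint_left]
    intro S hS hS'
    obtain ⟨S', _, rfl⟩ := mem_image.1 hS'
    exact hi ((mem_powersetCard.1 hS).1 (mem_insert_self _ _))

lemma map_lin {S : Type*} [CommRing S] (f : R →+* S) (a : γ → R) :
    map f (lin a) = lin (fun j => f (a j)) := by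
  unfold lin
  rw [map_sum]
  apply sum_congr rfl
  intro j _
  rw [map_mul, map_C, map_X]

lemma map_esr {S : Type*} [CommRing S] (f : R →+* S) (T : Finset ρ) (r : ℕ) (y : ρ → γ → R) :
    map f (esr T r y) = esr T r (fun i j => f (y i j)) := by
  unfold esr
  rw [map_sum]
  apply sum_congr rfl
  intro U _
  rw [map_prod]
  apply prod_congr rfl
  intro i _
  exact map_lin f (y i)

lemma map_sqf [DecidableEq γ] {S : Type*} [CommRing S] (f : R →+* S) (r : ℕ)
    (P : MvPolynomial γ R) : f (sqf r P) = sqf r (map f P) := by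
  unfold sqf
  rw [map_sum]
  apply sum_congr rfl
  intro U _
  rw [coeff_map]

end esr

section gen

variable {ρ γ : Type} [Fintype γ] [DecidableEq ρ] [DecidableEq γ]

/-- The partial derivative as an additive map. -/
noncomputable def pd (v : ρ × γ) : MvPolynomial (ρ × γ) ℂ →+ MvPolynomial (ρ × γ) ℂ :=
  ((pderiv v : Derivation ℂ (MvPolynomial (ρ × γ) ℂ) (MvPolynomial (ρ × γ) ℂ)) :
    MvPolynomial (ρ × γ) ℂ →ₗ[ℂ] MvPolynomial (ρ × γ) ℂ).toAddMonoidHom

lemma pd_apply (v : ρ × γ) (f : MvPolynomial (ρ × γ) ℂ) : pd v f = pderiv v f := rfl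

lemma pd_leibniz (v : ρ × γ) (a b : MvPolynomial (ρ × γ) ℂ) :
    pd v (a * b) = a * pd v b + b * pd v a := by
  rw [pd_apply, pd_apply, pd_apply, Derivation.leibniz]
  rfl

lemma Dt_lin_ne {i k : ρ} (h : k ≠ i) (j : γ) : Dt (pd (i, j)) (lin (gen ρ γ k)) = 0 := by
  unfold lin
  rw [Dt_sum]
  apply sum_eq_zero
  intro c _
  rw [mul_comm, Dt_X_mul _ (pd_leibniz _), Dt_C, pd_apply]
  have : pderiv (i, j) (gen ρ γ k c) = 0 := by
    unfold gen
    rw [pderiv_X_of_ne]
    intro h1
    exact h (Prod.mk.inj h1).1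
  rw [this, map_zero, mul_zero]

lemma Dt_lin_self (i : ρ) (j : γ) : Dt (pd (i, j)) (lin (gen ρ γ i)) = X j := by
  unfold lin
  rw [Dt_sum, sum_eq_single j]
  · rw [mul_comm, Dt_X_mul _ (pd_leibniz _), Dt_C, pd_apply]
    have : pderiv (i, j) (gen ρ γ i j) = 1 := by
      unfold gen
      exact pderiv_X_self _
    rw [this, map_one, mul_one]
  · intro c _ hc
    rw [mul_comm, Dt_X_mul _ (pd_leibniz _), Dt_C, pd_apply]
    have : pderiv (i, j) (gen ρ γ i c) = 0 := by
      unfold gen
      rw [pderiv_X_of_ne]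
      intro h1
      exact hc (Prod.mk.inj h1).2
    rw [this, map_zero, mul_zero]
  · intro h
    exact absurd (mem_univ _) h

lemma Dt_esr_of_notMem {T : Finset ρ} {i : ρ} (hi : i ∉ T) (j : γ) (r : ℕ) :
    Dt (pd (i, j)) (esr T r (gen ρ γ)) = 0 := by
  unfold esr
  rw [Dt_sum]
  apply sum_eq_zero
  intro S hS
  have hiS : i ∉ S := fun h => hi ((mem_powersetCard.1 hS).1 h)
  clear hS
  induction S using Finset.induction_on with
  | empty =>
    rw [prod_empty, ← map_one (C : MvPolynomial (ρ × γ) ℂ →+* _), Dt_C,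
      D_one _ (pd_leibniz _), map_zero]
  | insert a S ha ih =>
    rw [mem_insert, not_or] at hiS
    rw [prod_insert ha, Dt_mul _ (pd_leibniz _), ih hiS.2, Dt_lin_ne (Ne.symm hiS.1), mul_zero,
      mul_zero, add_zero]

lemma Dt_esr {T : Finset ρ} {i : ρ} (hi : i ∈ T) (j : γ) (r : ℕ) :
    Dt (pd (i, j)) (esr T (r + 1) (gen ρ γ)) = X j * esr (T.erase i) r (gen ρ γ) := by
  have h : insert i (T.erase i) = T := insert_erase hi
  conv_lhs => rw [← h]
  rw [esr_insert (notMem_erase i T), Dt_add, Dt_esr_of_notMem (notMem_erase i T), zero_add,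
    Dt_mul _ (pd_leibniz _), Dt_esr_of_notMem (notMem_erase i T), mul_zero, zero_add,
    Dt_lin_self, mul_comm]

/-- The first derivatives, as polynomials. -/
lemma pderiv_sig [Fintype ρ] (r : ℕ) (i : ρ) (j : γ) :
    pderiv (i, j) (sig (r + 1) (gen ρ γ)) =
      sqf (r + 1) (X j * esr (univ.erase i) r (gen ρ γ)) := by
  rw [← Dt_esr (mem_univ i) j r, sqf_Dt, pd_apply]
  rfl

lemma pderiv_pderiv_sig [Fintype ρ] (r : ℕ) (i k : ρ) (j l : γ) :
    pderiv (k, l) (pderiv (i, j) (sig (r + 2) (gen ρ γ))) =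
      if k = i then 0 else
        sqf (r + 2) (X l * (X j * esr ((univ.erase i).erase k) r (gen ρ γ))) := by
  rw [pderiv_sig (r + 1) i j, ← pd_apply, ← sqf_Dt, Dt_X_mul _ (pd_leibniz _)]
  split_ifs with h
  · subst h
    rw [Dt_esr_of_notMem (notMem_erase k univ), mul_zero]
    unfold sqf
    apply sum_eq_zero
    intro S _
    exact coeff_zero _
  · rw [Dt_esr (mem_erase.2 ⟨h, mem_univ k⟩), mul_left_comm]

/-- **The first derivatives at a point.** -/
theorem eval_pderiv_sig [Fintype ρ] (r : ℕ) (p : ρ × γ → ℂ) (i : ρ) (j : γ) :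
    eval p (pderiv (i, j) (sig (r + 1) (gen ρ γ))) =
      sqf (r + 1) (X j * esr (univ.erase i) r (fun i j => p (i, j))) := by
  rw [pderiv_sig, map_sqf, map_mul, map_X, map_esr]
  simp only [gen, eval_X]

/-- **The second derivatives at a point.** -/
theorem eval_pderiv_pderiv_sig [Fintype ρ] (r : ℕ) (p : ρ × γ → ℂ) (i k : ρ) (j l : γ) :
    eval p (pderiv (k, l) (pderiv (i, j) (sig (r + 2) (gen ρ γ)))) =
      if k = i then 0 else
        sqf (r + 2) (X l * (X j * esr ((univ.erase i).erase k) r (fun i j => p (i, j)))) := by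
  rw [pderiv_pderiv_sig]
  split_ifs with h
  · rw [map_zero]
  · rw [map_sqf, map_mul, map_mul, map_X, map_X, map_esr]
    simp only [gen, eval_X]

end gen

end L5helper54.DC
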