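import Mathlib
import Pool.Agent.L5helper59.DC.Defs
import Pool.Agent.L5helper54.DC.SigDeriv

/-!
# Squarefree coefficients
-/

set_option linter.unusedSectionVars false

namespace L5helper54.DC

open Finset MvPolynomial L5helper59.DC

section sc

variable {γ : Type*} [DecidableEq γ] {R : Type*} [CommRing R]

lemma ind_apply (C : Finset γ) (j : γ) :
    (∑ i ∈ C, Finsupp.single i 1 : γ →₀ ℕ) j = if j ∈ C then 1 else 0 := by
  rw [Finsupp.finsetSum_apply]
  simp only [Finsupp.single_apply]
  rw [Finset.sum_ite_eq' C j (fun _ => 1)]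

/-- The squarefree coefficients. -/
noncomputable def sc (P : MvPolynomial γ R) (C : Finset γ) : R :=
  coeff (∑ j ∈ C, Finsupp.single j 1) P

lemma sqf_eq [Fintype γ] (r : ℕ) (P : MvPolynomial γ R) :
    sqf r P = ∑ C ∈ powersetCard r univ, sc P C := rfl

lemma sc_add (P Q : MvPolynomial γ R) (C : Finset γ) : sc (P + Q) C = sc P C + sc Q C :=
  coeff_add _ _ _

lemma sc_sum {ι : Type*} (s : Finset ι) (f : ι → MvPolynomial γ R) (C : Finset γ) :
    sc (∑ i ∈ s, f i) C = ∑ i ∈ s, sc (f i) C := coeff_sum _ _ _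

lemma sc_zero (C : Finset γ) : sc (0 : MvPolynomial γ R) C = 0 := coeff_zero _

lemma sc_C_mul (a : R) (P : MvPolynomial γ R) (C : Finset γ) :
    sc (MvPolynomial.C a * P) C = a * sc P C := coeff_C_mul _ _ _

lemma sc_one (C : Finset γ) : sc (1 : MvPolynomial γ R) C = if C = ∅ then 1 else 0 := by
  unfold sc
  rw [coeff_one]
  congr 1
  apply propext
  constructor
  · intro h
    rw [eq_empty_iff_forall_notMem]
    intro j hj
    have h1 := DFunLike.congr_fun h j
    rw [ind_apply, if_pos hj] at h1
    simp at h1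
  · rintro rfl
    rw [sum_empty]

/-- The product rule. -/
lemma sc_mul (P Q : MvPolynomial γ R) (C : Finset γ) :
    sc (P * Q) C = ∑ C' ∈ C.powerset, sc P C' * sc Q (C \ C') := by
  unfold sc
  rw [coeff_mul]
  symm
  apply sum_bij (fun C' _ => ((∑ j ∈ C', Finsupp.single j 1 : γ →₀ ℕ),
    (∑ j ∈ C \ C', Finsupp.single j 1 : γ →₀ ℕ)))
  · intro C' hC'
    rw [HasAntidiagonal.mem_antidiagonal]
    rw [add_comm]
    exact sum_sdiff (mem_powerset.1 hC')
  · intro C₁ h₁ C₂ h₂ h
    have h1 := (Prod.mk.inj h).1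
    ext j
    have h2 := DFunLike.congr_fun h1 j
    rw [ind_apply, ind_apply] at h2
    by_cases h3 : j ∈ C₁ <;> by_cases h4 : j ∈ C₂ <;> simp_all
  · intro x hx
    rw [HasAntidiagonal.mem_antidiagonal] at hx
    have hj : ∀ j, x.1 j + x.2 j = if j ∈ C then 1 else 0 := by
      intro j
      rw [← ind_apply, ← hx]
      rfl
    refine ⟨x.1.support, ?_, ?_⟩
    · rw [mem_powerset]
      intro j hj1
      rw [Finsupp.mem_support_iff] at hj1
      by_contra h
      have h2 := hj j
      rw [if_neg h] at h2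
      omega
    · ext j
      · show (∑ i ∈ x.1.support, Finsupp.single i 1 : γ →₀ ℕ) j = x.1 j
        rw [ind_apply]
        have h2 := hj j
        by_cases h3 : x.1 j = 0
        · rw [if_neg (by rw [Finsupp.mem_support_iff]; exact not_not.2 h3), h3]
        · rw [if_pos (by rw [Finsupp.mem_support_iff]; exact h3)]
          split_ifs at h2 <;> omega
      · show (∑ i ∈ C \ x.1.support, Finsupp.single i 1 : γ →₀ ℕ) j = x.2 j
        rw [ind_apply]
        have h2 := hj j
        by_cases h3 : j ∈ C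
        · rw [if_pos h3] at h2
          by_cases h4 : x.1 j = 0
          · rw [if_pos (by
              rw [mem_sdiff, Finsupp.mem_support_iff]; exact ⟨h3, not_not.2 h4⟩)]
            omega
          · rw [if_neg (by
              rw [mem_sdiff, Finsupp.mem_support_iff]; exact fun h => h.2 h4)]
            omega
        · rw [if_neg h3] at h2
          rw [if_neg (by rw [mem_sdiff]; exact fun h => h3 h.1)]
          omega
  · intro C' _
    rfl

lemma sc_X (j : γ) (C : Finset γ) :
    sc (X j : MvPolynomial γ R) C = if C = {j} then 1 else 0 := by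
  unfold sc
  rw [coeff_X]
  have h : (Finsupp.single j 1 = ∑ i ∈ C, Finsupp.single i 1) ↔ C = {j} := by
    constructor
    · intro h
      ext i
      have h1 := DFunLike.congr_fun h i
      rw [ind_apply, Finsupp.single_apply] at h1
      rw [mem_singleton]
      by_cases h2 : i ∈ C <;> by_cases h3 : j = i <;> simp_all
      exact fun h4 => h3 h4.symm
    · rintro rfl
      rw [sum_singleton]
  by_cases hC : C = {j}
  · rw [if_pos hC, if_pos (h.2 hC)]
  · rw [if_neg hC, if_neg (fun h1 => hC (h.1 h1))]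

lemma sc_X_mul (j : γ) (P : MvPolynomial γ R) (C : Finset γ) :
    sc (X j * P) C = if j ∈ C then sc P (C.erase j) else 0 := by
  rw [sc_mul]
  simp only [sc_X, ite_mul, one_mul, zero_mul]
  rw [Finset.sum_ite_eq' C.powerset {j} (fun C' => sc P (C \ C'))]
  simp only [mem_powerset, singleton_subset_iff, sdiff_singleton_eq_erase]

lemma sc_lin_mul [Fintype γ] (a : γ → R) (P : MvPolynomial γ R) (C : Finset γ) :
    sc (lin a * P) C = ∑ c ∈ C, a c * sc P (C.erase c) := by
  unfold lin
  rw [sum_mul, sc_sum]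
  simp only [mul_assoc, sc_C_mul, sc_X_mul, mul_ite, mul_zero]
  rw [← sum_filter]
  congr 1
  ext c
  simp

lemma sc_lin_pow [Fintype γ] (a : γ → R) (t : ℕ) (C : Finset γ) :
    sc (lin a ^ t) C = if C.card = t then (t.factorial : R) * ∏ c ∈ C, a c else 0 := by
  induction t generalizing C with
  | zero =>
    rw [pow_zero, sc_one]
    by_cases h : C = ∅
    · subst h
      simp
    · rw [if_neg h, if_neg (by rw [card_eq_zero]; exact h)]
  | succ t ih =>
    rw [pow_succ', sc_lin_mul]
    have h1 : ∀ c ∈ C, a c * sc (lin a ^ t) (C.erase c) =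
        if C.card = t + 1 then (t.factorial : R) * ∏ c ∈ C, a c else 0 := by
      intro c hc
      rw [ih, card_erase_of_mem hc]
      have h2 := card_pos.2 ⟨c, hc⟩
      by_cases h3 : C.card = t + 1
      · rw [if_pos h3, if_pos (by omega), ← mul_prod_erase C a hc]
        ring
      · rw [if_neg h3, if_neg (by omega), mul_zero]
    rw [sum_congr rfl h1, sum_const, nsmul_eq_mul]
    split_ifs with h3
    · rw [h3, Nat.factorial_succ]
      push_cast
      ring
    · rw [mul_zero]

/-- Homogeneity. -/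
lemma sc_prod_lin [Fintype γ] {ρ : Type*} (y : ρ → γ → R) (S : Finset ρ) (C : Finset γ)
    (h : C.card ≠ S.card) : sc (∏ i ∈ S, lin (y i)) C = 0 := by
  classical
  induction S using Finset.induction_on generalizing C with
  | empty =>
    rw [prod_empty, sc_one, if_neg]
    rintro rfl
    exact h rfl
  | insert i S hi ih =>
    rw [prod_insert hi, sc_lin_mul]
    apply sum_eq_zero
    intro c hc
    rw [ih, mul_zero]
    rw [card_erase_of_mem hc]
    rw [card_insert_of_notMem hi] at h
    have := card_pos.2 ⟨c, hc⟩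
    omega

lemma sc_esr_of_card_ne [Fintype γ] {ρ : Type*} (T : Finset ρ) (r : ℕ) (y : ρ → γ → R)
    (C : Finset γ) (h : C.card ≠ r) : sc (esr T r y) C = 0 := by
  unfold esr
  rw [sc_sum]
  apply sum_eq_zero
  intro S hS
  apply sc_prod_lin
  rw [(mem_powersetCard.1 hS).2]
  exact h

lemma esr_zero [Fintype γ] {ρ : Type*} (T : Finset ρ) (y : ρ → γ → R) : esr T 0 y = 1 := by
  unfold esr
  rw [powersetCard_zero, sum_singleton, prod_empty]

/-- The elementary symmetric functions without one row. -/
lemma esr_erase_sum [Fintype γ] {ρ : Type*} [DecidableEq ρ] {T : Finset ρ} {i : ρ} (hi : i ∈ T)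
    (y : ρ → γ → R) (s : ℕ) :
    esr (T.erase i) s y = ∑ t ∈ range (s + 1), (-lin (y i)) ^ t * esr T (s - t) y := by
  induction s with
  | zero => simp [esr_zero]
  | succ s ih =>
    have h1 : ∑ t ∈ range (s + 1 + 1), (-lin (y i)) ^ t * esr T (s + 1 - t) y =
        ∑ t ∈ range (s + 1), (-lin (y i)) ^ (t + 1) * esr T (s - t) y + esr T (s + 1) y := by
      rw [sum_range_succ']
      simp only [pow_zero, one_mul, Nat.sub_zero, Nat.add_sub_add_right]
    have h2 : lin (y i) * ∑ t ∈ range (s + 1), (-lin (y i)) ^ t * esr T (s - t) y =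
        -∑ t ∈ range (s + 1), (-lin (y i)) ^ (t + 1) * esr T (s - t) y := by
      rw [mul_sum, ← sum_neg_distrib]
      apply sum_congr rfl
      intro i _
      ring
    have h3 := esr_insert (notMem_erase i T) s y
    rw [insert_erase hi] at h3
    have h4 : esr (T.erase i) (s + 1) y = esr T (s + 1) y - lin (y i) * esr (T.erase i) s y := by
      rw [h3]; ring
    rw [h4, ih, h1, h2]
    ring

/-- Newton's identities for the rows. -/
lemma newton [Fintype γ] {ρ : Type*} [Fintype ρ] (k : ℕ) (y : ρ → γ → ℂ) :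
    (k : MvPolynomial γ ℂ) * esr univ k y = (-1) ^ (k + 1) *
      ∑ a ∈ antidiagonal k with a.1 < k, (-1) ^ a.1 * esr univ a.1 y * ∑ i, lin (y i) ^ a.2 := by
  classical
  have h := congrArg (aeval (fun i => lin (y i)) : MvPolynomial ρ ℂ →ₐ[ℂ] MvPolynomial γ ℂ)
    (MvPolynomial.mul_esymm_eq_sum ρ ℂ k)
  have h1 : ∀ n, aeval (fun i => lin (y i)) (MvPolynomial.esymm ρ ℂ n) = esr univ n y := by
    intro n
    unfold MvPolynomial.esymm esr
    rw [map_sum]
    apply sum_congr rfl
    intro S _
    rw [map_prod]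
    apply prod_congr rfl
    intro i _
    rw [aeval_X]
  have h2 : ∀ n, aeval (fun i => lin (y i)) (MvPolynomial.psum ρ ℂ n) = ∑ i, lin (y i) ^ n := by
    intro n
    unfold MvPolynomial.psum
    rw [map_sum]
    apply sum_congr rfl
    intro i _
    rw [map_pow, aeval_X]
  simp only [map_mul, map_natCast, map_pow, map_neg, map_one, map_sum, h1, h2] at h
  exact h

/-- **The squarefree coefficients of the elementary symmetric functions of the rows.** -/
theorem sc_esr [Fintype γ] {ρ : Type*} [Fintype ρ] (y : ρ → γ → ℂ) (q : ℕ)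
    (hsum : ∀ C : Finset γ, 0 < C.card → C.card < q → ∑ i, ∏ c ∈ C, y i c = 0) :
    (∀ r, 0 < r → r < q → ∀ C, sc (esr univ r y) C = 0) ∧
    (0 < q → ∀ C : Finset γ, C.card = q →
      sc (esr univ q y) C = (-1) ^ (q + 1) * ((q - 1).factorial : ℂ) * ∑ i, ∏ c ∈ C, y i c) := by
  have hps : ∀ (m : ℕ) (C : Finset γ), sc (∑ i, lin (y i) ^ m) C =
      if C.card = m then (m.factorial : ℂ) * ∑ i, ∏ c ∈ C, y i c else 0 := by
    intro m C
    rw [sc_sum]
    simp only [sc_lin_pow]
    split_ifs with h
    · rw [mul_sum]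
    · exact sum_const_zero
  have hneg : ∀ (n : ℕ) (P : MvPolynomial γ ℂ) (C : Finset γ),
      sc ((-1) ^ n * P) C = (-1) ^ n * sc P C := by
    intro n P C
    have : ((-1 : MvPolynomial γ ℂ)) ^ n = MvPolynomial.C ((-1) ^ n) := by
      rw [map_pow, map_neg, map_one]
    rw [this, sc_C_mul]
  have hcast : ∀ (n : ℕ) (P : MvPolynomial γ ℂ) (C : Finset γ),
      sc ((n : MvPolynomial γ ℂ) * P) C = n * sc P C := by
    intro n P C
    have : ((n : MvPolynomial γ ℂ)) = MvPolynomial.C (n : ℂ) := by
      rw [map_natCast]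
    rw [this, sc_C_mul]
  have key : ∀ (k : ℕ) (C : Finset γ), (k : ℂ) * sc (esr univ k y) C = (-1) ^ (k + 1) *
      ∑ a ∈ antidiagonal k with a.1 < k, (-1) ^ a.1 * ∑ C' ∈ C.powerset,
        sc (esr univ a.1 y) C' * sc (∑ i, lin (y i) ^ a.2) (C \ C') := by
    intro k C
    rw [← hcast, newton, hneg, sc_sum]
    congr 1
    apply sum_congr rfl
    intro a _
    rw [mul_assoc, hneg, sc_mul]
  have h1 : ∀ r, 0 < r → r < q → ∀ C, sc (esr univ r y) C = 0 := by
    intro r hr0 hrq C
    have h2 := key r C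
    rw [sum_eq_zero, mul_zero] at h2
    · rcases mul_eq_zero.1 h2 with h3 | h3
      · exact absurd (Nat.cast_eq_zero.1 h3) (by omega)
      · exact h3
    · intro a ha
      rw [mem_filter, HasAntidiagonal.mem_antidiagonal] at ha
      rw [sum_eq_zero, mul_zero]
      intro C' _
      rw [hps]
      split_ifs with h3
      · rw [hsum (C \ C') (by omega) (by omega), mul_zero, mul_zero]
      · rw [mul_zero]
  refine ⟨h1, ?_⟩
  intro hq C hC
  have h2 := key q C
  have h3 : ∑ a ∈ antidiagonal q with a.1 < q, (-1) ^ a.1 * ∑ C' ∈ C.powerset,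
        sc (esr univ a.1 y) C' * sc (∑ i, lin (y i) ^ a.2) (C \ C') =
      (q.factorial : ℂ) * ∑ i, ∏ c ∈ C, y i c := by
    rw [sum_eq_single (0, q)]
    · simp only [pow_zero, one_mul]
      rw [sum_eq_single ∅]
      · rw [esr_zero, sc_one, if_pos rfl, one_mul, sdiff_empty, hps, if_pos hC]
      · intro C' _ hC'
        rw [esr_zero, sc_one, if_neg hC', zero_mul]
      · intro h
        exact absurd (mem_powerset.2 (empty_subset _)) h
    · intro a ha hne
      rw [mem_filter, HasAntidiagonal.mem_antidiagonal] at ha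
      have ha1 : 0 < a.1 := by
        rcases Nat.eq_zero_or_pos a.1 with h | h
        · exfalso
          apply hne
          ext
          · exact h
          · show a.2 = q
            omega
        · exact h
      rw [sum_eq_zero, mul_zero]
      intro C' _
      rw [h1 a.1 ha1 ha.2, zero_mul]
    · intro h
      exfalso
      apply h
      rw [mem_filter, HasAntidiagonal.mem_antidiagonal]
      exact ⟨by simp, hq⟩
  rw [h3] at h2
  have h4 : (q.factorial : ℂ) = q * ((q - 1).factorial : ℂ) := by
    obtain ⟨s, rfl⟩ : ∃ s, q = s + 1 := ⟨q - 1, by omega⟩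
    rw [Nat.factorial_succ]
    push_cast
    rfl
  rw [h4] at h2
  have h5 : (q : ℂ) ≠ 0 := by exact_mod_cast (by omega : q ≠ 0)
  apply mul_left_cancel₀ h5
  rw [h2]
  ring

end sc

end L5helper54.DC
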