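import Mathlib

/-!
# Elementary symmetric functions of the roots of unity
-/

set_option linter.unusedSectionVars false

namespace L5helper54.DC

open Finset

section es

variable {γ : Type*} [DecidableEq γ]

/-- The elementary symmetric function of the numbers `a c`, `c ∈ T`. -/
noncomputable def es (a : γ → ℂ) (s : ℕ) (T : Finset γ) : ℂ :=
  ∑ U ∈ powersetCard s T, ∏ c ∈ U, a c

lemma es_zero (a : γ → ℂ) (T : Finset γ) : es a 0 T = 1 := by
  unfold es
  rw [powersetCard_zero, sum_singleton, prod_empty]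

lemma es_insert (a : γ → ℂ) (s : ℕ) {T : Finset γ} {j : γ} (hj : j ∉ T) :
    es a (s + 1) (insert j T) = es a (s + 1) T + a j * es a s T := by
  unfold es
  rw [powersetCard_succ_insert hj, sum_union]
  · congr 1
    rw [mul_sum, sum_image]
    · apply sum_congr rfl
      intro S hS
      rw [prod_insert]
      exact fun h => hj ((mem_powersetCard.1 hS).1 h)
    · intro S hS S' hS' h
      have h1 : j ∉ S := fun h => hj ((mem_powersetCard.1 hS).1 h)
      have h2 : j ∉ S' := fun h => hj ((mem_powersetCard.1 hS').1 h)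
      have h3 := congrArg (fun U => U.erase j) h
      simpa [erase_insert h1, erase_insert h2] using h3
  · rw [Finset.disjoint_left]
    intro S hS hS'
    obtain ⟨S', _, rfl⟩ := mem_image.1 hS'
    exact hj ((mem_powersetCard.1 hS).1 (mem_insert_self _ _))

lemma es_erase (a : γ → ℂ) (s : ℕ) {T : Finset γ} {j : γ} (hj : j ∈ T) :
    es a (s + 1) (T.erase j) = es a (s + 1) T - a j * es a s (T.erase j) := by
  have h := es_insert a s (notMem_erase j T)
  rw [insert_erase hj] at h
  rw [h]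
  ring

/-- The elementary symmetric functions without one number. -/
lemma es_erase_sum (a : γ → ℂ) {T : Finset γ} {j : γ} (hj : j ∈ T) (s : ℕ) :
    es a s (T.erase j) = ∑ i ∈ range (s + 1), (-a j) ^ i * es a (s - i) T := by
  induction s with
  | zero => simp [es_zero]
  | succ s ih =>
    have h1 : ∑ i ∈ range (s + 1 + 1), (-a j) ^ i * es a (s + 1 - i) T =
        ∑ i ∈ range (s + 1), (-a j) ^ (i + 1) * es a (s - i) T + es a (s + 1) T := by
      rw [sum_range_succ']
      simp only [pow_zero, one_mul, Nat.sub_zero, Nat.add_sub_add_right]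
    have h2 : a j * ∑ i ∈ range (s + 1), (-a j) ^ i * es a (s - i) T =
        -∑ i ∈ range (s + 1), (-a j) ^ (i + 1) * es a (s - i) T := by
      rw [mul_sum, ← sum_neg_distrib]
      apply sum_congr rfl
      intro i _
      ring
    rw [es_erase a s hj, ih, h1, h2]
    ring

/-- The generating polynomial. -/
lemma coeff_prod (a : γ → ℂ) (T : Finset γ) (s : ℕ) :
    Polynomial.coeff (∏ c ∈ T, (1 + Polynomial.C (a c) * Polynomial.X)) s = es a s T := by
  induction T using Finset.induction_on generalizing s with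
  | empty =>
    rw [prod_empty, Polynomial.coeff_one]
    rcases Nat.eq_zero_or_pos s with h | h
    · subst h
      rw [if_pos rfl, es_zero]
    · rw [if_neg (by omega)]
      unfold es
      rw [powersetCard_eq_empty.2 (by rw [card_empty]; exact h), sum_empty]
  | insert j T hj ih =>
    rw [prod_insert hj, add_mul, one_mul, Polynomial.coeff_add, mul_assoc, Polynomial.coeff_C_mul]
    cases s with
    | zero =>
      rw [Polynomial.coeff_X_mul_zero, ih, es_zero, es_zero, mul_zero, add_zero]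
    | succ s =>
      rw [Polynomial.coeff_X_mul, ih, ih, es_insert a s hj]

end es

section roots

variable {q : ℕ} [NeZero q]

/-- The product over all roots of unity. -/
lemma prod_roots {ζ : ℂ} (hζ : IsPrimitiveRoot ζ q) (π : Equiv.Perm (ZMod q)) :
    ∏ l : ZMod q, (1 + Polynomial.C (ζ ^ (π l).val) * Polynomial.X) =
      (1 : Polynomial ℂ) - (-Polynomial.X) ^ q := by
  have hq : 0 < q := Nat.pos_of_ne_zero (NeZero.ne q)
  rw [Equiv.prod_comp π (fun l : ZMod q => (1 + Polynomial.C (ζ ^ l.val) * Polynomial.X :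
    Polynomial ℂ))]
  have hζ' : IsPrimitiveRoot (Polynomial.C ζ) q := hζ.map_of_injective Polynomial.C_injective
  have h1 := hζ'.pow_sub_pow_eq_prod_sub_mul (1 : Polynomial ℂ) (-Polynomial.X) hq
  rw [one_pow] at h1
  rw [h1]
  symm
  apply prod_bij' (i := fun z _ => if h : ∃ l : ZMod q, (Polynomial.C ζ) ^ l.val = z then h.choose
    else 0) (j := fun l _ => (Polynomial.C ζ) ^ l.val)
  · intro z _
    exact mem_univ _
  · intro l _
    rw [Polynomial.mem_nthRootsFinset hq, ← pow_mul, mul_comm, pow_mul, hζ'.pow_eq_one, one_pow]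
  · intro z hz
    rw [Polynomial.mem_nthRootsFinset hq] at hz
    obtain ⟨i, hi, hi'⟩ := hζ'.eq_pow_of_pow_eq_one hz
    have hex : ∃ l : ZMod q, (Polynomial.C ζ) ^ l.val = z :=
      ⟨(i : ZMod q), by rw [ZMod.val_natCast, Nat.mod_eq_of_lt hi, hi']⟩
    rw [dif_pos hex]
    exact hex.choose_spec
  · intro l _
    have hex : ∃ l' : ZMod q, (Polynomial.C ζ) ^ l'.val = (Polynomial.C ζ) ^ l.val := ⟨l, rfl⟩
    rw [dif_pos hex]
    have h2 := hζ'.pow_inj (ZMod.val_lt _) (ZMod.val_lt _) hex.choose_spec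
    exact ZMod.val_injective q h2
  · intro z hz
    rw [Polynomial.mem_nthRootsFinset hq] at hz
    obtain ⟨i, hi, hi'⟩ := hζ'.eq_pow_of_pow_eq_one hz
    have hex : ∃ l : ZMod q, (Polynomial.C ζ) ^ l.val = z :=
      ⟨(i : ZMod q), by rw [ZMod.val_natCast, Nat.mod_eq_of_lt hi, hi']⟩
    rw [dif_pos hex, map_pow, hex.choose_spec]
    ring

/-- The row of the type `τ`. -/
noncomputable def row (ζ : ℂ) (τ : Fin 2 → Equiv.Perm (ZMod q)) : Fin 2 × ZMod q → ℂ :=
  fun c => ζ ^ (τ c.1 c.2).val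

lemma prod_row {ζ : ℂ} (hζ : IsPrimitiveRoot ζ q) (τ : Fin 2 → Equiv.Perm (ZMod q)) :
    ∏ c : Fin 2 × ZMod q, (1 + Polynomial.C (row ζ τ c) * Polynomial.X) =
      ((1 : Polynomial ℂ) - (-Polynomial.X) ^ q) ^ 2 := by
  rw [Fintype.prod_prod_type, Fin.prod_univ_two, sq]
  congr 1
  · exact prod_roots hζ (τ 0)
  · exact prod_roots hζ (τ 1)

/-- The elementary symmetric functions of degrees `0 < s < q` of a row vanish. -/
lemma es_row {ζ : ℂ} (hζ : IsPrimitiveRoot ζ q) (τ : Fin 2 → Equiv.Perm (ZMod q)) (s : ℕ) :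
    es (row ζ τ) s univ = if s = 0 then 1 else if s = q then -2 * (-1) ^ q else
      if s = 2 * q then 1 else 0 := by
  have hq : q ≠ 0 := NeZero.ne q
  rw [← coeff_prod, prod_row hζ]
  have h : ((1 : Polynomial ℂ) - (-Polynomial.X) ^ q) ^ 2 =
      1 + Polynomial.C (-2 * (-1) ^ q) * Polynomial.X ^ q + Polynomial.X ^ (2 * q) := by
    have h2 : (-Polynomial.X : Polynomial ℂ) ^ q = Polynomial.C ((-1) ^ q) * Polynomial.X ^ q := by
      rw [neg_pow, map_pow, map_neg, map_one]
    have h3 : ((-Polynomial.X : Polynomial ℂ) ^ q) ^ 2 = Polynomial.X ^ (2 * q) := by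
      rw [← pow_mul, mul_comm q 2, pow_mul, neg_sq, ← pow_mul]
    have h4 : ((1 : Polynomial ℂ) - (-Polynomial.X) ^ q) ^ 2 =
        1 - 2 * (-Polynomial.X) ^ q + ((-Polynomial.X) ^ q) ^ 2 := by ring
    rw [h4, h3, h2, map_mul, map_neg, map_ofNat]
    ring
  rw [h, Polynomial.coeff_add, Polynomial.coeff_add, Polynomial.coeff_one,
    Polynomial.coeff_C_mul_X_pow, Polynomial.coeff_X_pow]
  by_cases h0 : s = 0
  · subst h0
    rw [if_pos rfl, if_pos rfl, if_neg (Ne.symm hq), if_neg (by omega)]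
    ring
  · rw [if_neg h0, if_neg h0]
    by_cases h1 : s = q
    · rw [if_pos h1, if_pos h1, if_neg (by omega)]
      ring
    · rw [if_neg h1, if_neg h1]
      ring

lemma row_pow {ζ : ℂ} (hζ : IsPrimitiveRoot ζ q) (τ : Fin 2 → Equiv.Perm (ZMod q))
    (c : Fin 2 × ZMod q) : row ζ τ c ^ q = 1 := by
  unfold row
  rw [← pow_mul, mul_comm, pow_mul, hζ.pow_eq_one, one_pow]

lemma row_ne_zero {ζ : ℂ} (hζ : IsPrimitiveRoot ζ q) (τ : Fin 2 → Equiv.Perm (ZMod q))
    (c : Fin 2 × ZMod q) : row ζ τ c ≠ 0 := by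
  intro h
  have := row_pow hζ τ c
  rw [h, zero_pow (NeZero.ne q)] at this
  exact zero_ne_one this

/-- The elementary symmetric functions of a row without one entry. -/
lemma es_row_erase {ζ : ℂ} (hζ : IsPrimitiveRoot ζ q) (τ : Fin 2 → Equiv.Perm (ZMod q))
    (j : Fin 2 × ZMod q) {s : ℕ} (hs : s < q) :
    es (row ζ τ) s (univ.erase j) = (-row ζ τ j) ^ s := by
  rw [es_erase_sum _ (mem_univ j), sum_range_succ, sum_eq_zero]
  · rw [Nat.sub_self, es_zero, mul_one, zero_add]
  · intro i hi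
    rw [mem_range] at hi
    rw [es_row hζ, if_neg (by omega), if_neg (by omega), if_neg (by omega), mul_zero]

/-- `e_q` of a row without one entry. -/
lemma es_row_erase_q {ζ : ℂ} (hζ : IsPrimitiveRoot ζ q) (τ : Fin 2 → Equiv.Perm (ZMod q))
    (j : Fin 2 × ZMod q) : es (row ζ τ) q (univ.erase j) = -(-1) ^ q := by
  have hq : q ≠ 0 := NeZero.ne q
  obtain ⟨r, hr⟩ : ∃ r, q = r + 1 := ⟨q - 1, by omega⟩
  have h1 := es_erase (row ζ τ) (q - 1) (mem_univ j)
  rw [show q - 1 + 1 = q by omega] at h1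
  rw [h1, es_row hζ, if_neg hq, if_pos rfl, es_row_erase hζ τ j (by omega)]
  have h2 : row ζ τ j * (-row ζ τ j) ^ (q - 1) = -(-1) ^ q := by
    have h3 : row ζ τ j * (-row ζ τ j) ^ (q - 1) = -(-row ζ τ j) ^ (q - 1 + 1) := by
      rw [pow_succ]; ring
    rw [h3, show q - 1 + 1 = q by omega, neg_pow, row_pow hζ, mul_one]
  rw [h2]
  ring

/-- `e_(q-1)` of a row without two entries. -/
lemma es_row_erase_erase {ζ : ℂ} (hζ : IsPrimitiveRoot ζ q) (τ : Fin 2 → Equiv.Perm (ZMod q))
    {j l : Fin 2 × ZMod q} (hjl : j ≠ l) :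
    es (row ζ τ) (q - 1) ((univ.erase j).erase l) =
      if row ζ τ j = row ζ τ l then (-1) ^ (q - 1) * q * row ζ τ j ^ (q - 1) else 0 := by
  have hq : q ≠ 0 := NeZero.ne q
  rw [es_erase_sum _ (mem_erase.2 ⟨Ne.symm hjl, mem_univ l⟩)]
  have h1 : ∀ i ∈ range (q - 1 + 1), (-row ζ τ l) ^ i * es (row ζ τ) (q - 1 - i) (univ.erase j) =
      (-1) ^ (q - 1) * (row ζ τ l ^ i * row ζ τ j ^ (q - 1 - i)) := by
    intro i hi
    rw [mem_range] at hi
    rw [es_row_erase hζ τ j (by omega), neg_pow (row ζ τ l), neg_pow (row ζ τ j)]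
    have h2 : (-1 : ℂ) ^ (q - 1) = (-1) ^ i * (-1) ^ (q - 1 - i) := by
      rw [← pow_add]
      congr 1
      omega
    rw [h2]
    ring
  rw [sum_congr rfl h1, ← mul_sum]
  split_ifs with h
  · rw [← h]
    have h2 : ∀ i ∈ range (q - 1 + 1), row ζ τ j ^ i * row ζ τ j ^ (q - 1 - i) =
        row ζ τ j ^ (q - 1) := by
      intro i hi
      rw [mem_range] at hi
      rw [← pow_add]
      congr 1
      omega
    rw [sum_congr rfl h2, sum_const, card_range, show q - 1 + 1 = q by omega, nsmul_eq_mul]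
    ring
  · have h2 : (∑ i ∈ range (q - 1 + 1), row ζ τ l ^ i * row ζ τ j ^ (q - 1 - i)) *
        (row ζ τ l - row ζ τ j) = 0 := by
      have h3 := Commute.geom_sum₂_mul (Commute.all (row ζ τ l) (row ζ τ j)) q
      rw [show q - 1 + 1 = q by omega, h3, row_pow hζ, row_pow hζ, sub_self]
    rcases mul_eq_zero.1 h2 with h3 | h3
    · rw [h3, mul_zero]
    · exact absurd (sub_eq_zero.1 h3).symm h

end roots

end L5helper54.DC
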